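import Pool.Agent.H24.BZ.Targets

/-!
Module VGL of the project BZ (`MP_c59857_nt`): gluing the levels of slowly varying signs.
-/

set_option autoImplicit false

open Finset Filter Pool.Agent.H24.BZ

namespace Pool.Agent.H33.BZ

theorem pf_VGL : T_VGL := by
  classical
  intro f Q c δ θ M G hδ hθ hc
  choose NN hNN B hBM hGB hT using hc
  choose! T hT using hT
  obtain ⟨N, hN0, hNs⟩ : ∃ N : ℕ → ℕ, N 0 = NN 0 1 ∧
      ∀ j, N (j + 1) = NN (j + 1) ((j + 2) * (N j + 1)) :=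
    ⟨fun j => Nat.rec (NN 0 1) (fun j x => NN (j + 1) ((j + 2) * (x + 1))) j, rfl, fun _ => rfl⟩
  obtain ⟨prev, hp0, hps⟩ : ∃ prev : ℕ → ℕ, prev 0 = 0 ∧ ∀ j, prev (j + 1) = N j :=
    ⟨fun j => Nat.rec 0 (fun j _ => N j) j, rfl, fun _ => rfl⟩
  obtain ⟨st, hst⟩ : ∃ st : ℕ → ℕ, ∀ j, st j = (j + 1) * (prev j + 1) := ⟨_, fun _ => rfl⟩
  have hNj : ∀ j, N j = NN j (st j) := by
    intro j
    cases j with
    | zero => rw [hN0, hst, hp0]
    | succ j => rw [hNs, hst, hps]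
  have hNge : ∀ j, (j + 1) * (prev j + 1) ≤ N j := by
    intro j
    rw [hNj, ← hst]
    exact hNN _ _
  have hprev : ∀ j, prev j < N j := by
    intro j
    have h := hNge j
    nlinarith [Nat.zero_le j, Nat.zero_le (prev j)]
  have hmono : StrictMono N := by
    apply strictMono_nat_of_lt_succ
    intro j
    have := hprev (j + 1)
    rwa [hps] at this
  have hNj1 : ∀ j, j + 1 ≤ N j := fun j => by
    have h := hNge j
    nlinarith [Nat.zero_le j, Nat.zero_le (prev j)]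
  have htend : Tendsto N atTop atTop := hmono.tendsto_atTop
  have hex : ∀ m z : ℕ, ∃ j, z ≤ N j / 2 ^ m := by
    intro m z
    obtain ⟨j, hj⟩ := (htend.eventually_ge_atTop (z * 2 ^ m)).exists
    exact ⟨j, (Nat.le_div_iff_mul_le (by positivity)).2 hj⟩
  obtain ⟨lvl, hlvl⟩ : ∃ lvl : ℕ → ℕ → ℕ, ∀ j m z, prev j / 2 ^ m < z → z ≤ N j / 2 ^ m →
      lvl m z = j := by
    refine ⟨fun m z => Nat.find (hex m z), ?_⟩
    intro j m z h1 h2
    simp only
    rw [Nat.find_eq_iff]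
    refine ⟨h2, ?_⟩
    intro i hi
    rw [not_le]
    refine lt_of_le_of_lt ?_ h1
    cases j with
    | zero => exact absurd hi (Nat.not_lt_zero _)
    | succ j =>
      rw [hps]
      exact Nat.div_le_div_right (hmono.monotone (Nat.lt_succ_iff.1 hi))
  obtain ⟨Tv, hTv⟩ : ∃ Tv : ℕ → ℕ → ℕ → ℤ, ∀ j m, Tv j m =
      if m ∈ B j (st j) then T j (st j) m else fun _ => 0 := ⟨_, fun _ _ => rfl⟩
  obtain ⟨τ, hτ⟩ : ∃ τ : ℕ → ℕ → ℤ, ∀ m z, τ m z =
      if z ≤ N (lvl m z) / 2 ^ (m + 1) then Tv (lvl m z) m z else 0 := ⟨_, fun _ _ => rfl⟩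
  have hτj : ∀ j m z, prev j / 2 ^ m < z → z ≤ N j / 2 ^ m →
      τ m z = if z ≤ N j / 2 ^ (m + 1) then Tv j m z else 0 := by
    intro j m z h1 h2
    rw [hτ, hlvl j m z h1 h2]
  have hτv : ∀ m z, τ m z = 0 ∨ τ m z = 1 ∨ τ m z = -1 := by
    intro m z
    rw [hτ]
    split_ifs with h
    · rw [hTv]
      split_ifs with h2
      · exact (hT _ _ _ h2).1 z
      · exact Or.inl rfl
    · exact Or.inl rfl
  -- the ultrafilter
  have hU : ∀ᶠ j in (hyperfilter ℕ : Filter ℕ), ∃ B' ∈ (M.powerset : Set (Finset ℕ)),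
      B j (st j) = B' :=
    Eventually.of_forall fun j => ⟨_, mem_coe.2 (mem_powerset.2 (hBM _ _)), rfl⟩
  obtain ⟨B', hB', hUB⟩ := (Ultrafilter.eventually_exists_mem_iff (M.powerset.finite_toSet)).1 hU
  have hB'M : B' ⊆ M := mem_powerset.1 (mem_coe.1 hB')
  have hGB' : G B' := by
    obtain ⟨j, hj⟩ := hUB.exists
    rw [← hj]
    exact hGB _ _
  have hle : (hyperfilter ℕ : Filter ℕ) ≤ atTop := Nat.hyperfilter_le_atTop
  refine ⟨hyperfilter ℕ, N, B', τ, hB'M, hGB', htend.mono_left hle, hτv, ?_⟩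
  intro m hm ζ hζ
  have hsmall : ∀ᶠ j : ℕ in atTop, (5 + δ + θ) / ((j : ℝ) + 1) ≤ ζ := by
    have h1 : Tendsto (fun j : ℕ => (5 + δ + θ) / ((j : ℝ) + 1)) atTop (nhds 0) := by
      have := (tendsto_one_div_add_atTop_nhds_zero_nat (𝕜 := ℝ)).const_mul (5 + δ + θ)
      rw [mul_zero] at this
      refine this.congr fun j => ?_
      ring
    exact (h1.eventually (gt_mem_nhds hζ)).mono fun _ h => le_of_lt h
  filter_upwards [hUB, hle hsmall] with j hj hjs
  have hmj : m ∈ B j (st j) := by rw [hj]; exact hm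
  obtain ⟨-, h1, h2, h3⟩ := hT j (st j) m hmj
  have hTj : Tv j m = T j (st j) m := by rw [hTv, if_pos hmj]
  rw [← hTj, ← hNj] at h1 h2 h3
  obtain ⟨X, hX⟩ : ∃ X, X = N j / 2 ^ (m + 1) := ⟨_, rfl⟩
  obtain ⟨Y, hY⟩ : ∃ Y, Y = N j / 2 ^ m := ⟨_, rfl⟩
  rw [← hX] at h1 h2 h3 ⊢
  rw [← hY]
  have hXY : X ≤ Y := by
    rw [hX, hY]
    exact Nat.div_le_div_left (Nat.pow_le_pow_right (by norm_num) (Nat.le_succ m)) (by positivity)
  have hpos : (0 : ℝ) < (j : ℝ) + 1 := by positivity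
  have hNr : (0 : ℝ) ≤ N j := Nat.cast_nonneg _
  obtain ⟨E, hE⟩ : ∃ E : ℝ, E = (N j : ℝ) / ((j : ℝ) + 1) := ⟨_, rfl⟩
  have hE1 : (1 : ℝ) ≤ E := by
    rw [hE, le_div_iff₀ hpos, one_mul]
    exact_mod_cast hNj1 j
  have hEp : (prev j : ℝ) ≤ E := by
    rw [hE, le_div_iff₀ hpos]
    have h : ((j : ℝ) + 1) * ((prev j : ℝ) + 1) ≤ N j := by exact_mod_cast hNge j
    nlinarith
  have hEz : (5 + δ + θ) * E ≤ ζ * N j := by
    rw [hE]
    calc (5 + δ + θ) * ((N j : ℝ) / ((j : ℝ) + 1)) = (5 + δ + θ) / ((j : ℝ) + 1) * N j := by ring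
      _ ≤ ζ * N j := mul_le_mul_of_nonneg_right hjs hNr
  have hXr : (X : ℝ) ≤ (N j : ℝ) / 2 ^ (m + 1) := by
    rw [hX]
    exact_mod_cast Nat.cast_div_le
  have hXr2 : (N j : ℝ) / 2 ^ (m + 1) - 1 ≤ X := by
    have h : N j < (X + 1) * 2 ^ (m + 1) := by
      rw [hX]
      exact (Nat.div_lt_iff_lt_mul (by positivity)).1 (Nat.lt_succ_self _)
    have h' : (N j : ℝ) < (X + 1) * 2 ^ (m + 1) := by exact_mod_cast h
    rw [sub_le_iff_le_add, div_le_iff₀ (by positivity)]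
    exact h'.le
  have hXN : (X : ℝ) ≤ N j := by
    refine hXr.trans (div_le_self hNr ?_)
    exact one_le_pow₀ (by norm_num)
  have hcp : ((Finset.Icc 1 (prev j / 2 ^ m)).card : ℝ) ≤ E := by
    rw [Nat.card_Icc, Nat.add_sub_cancel]
    refine le_trans ?_ hEp
    exact_mod_cast Nat.div_le_self _ _
  have hsupp : (((Finset.Icc 1 X).filter (fun z => Tv j m z ≠ 0)).card : ℝ) ≤
      E + ((Finset.Icc 1 X).filter (fun z => τ m z ≠ 0)).card := by
    have hsub : (Finset.Icc 1 X).filter (fun z => Tv j m z ≠ 0) ⊆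
        Finset.Icc 1 (prev j / 2 ^ m) ∪ (Finset.Icc 1 X).filter (fun z => τ m z ≠ 0) := by
      intro z hz
      rw [mem_filter, mem_Icc] at hz
      obtain ⟨⟨hz1, hz2⟩, hz3⟩ := hz
      rw [mem_union, mem_Icc, mem_filter, mem_Icc]
      by_cases hzp : z ≤ prev j / 2 ^ m
      · exact Or.inl ⟨hz1, hzp⟩
      · refine Or.inr ⟨⟨hz1, hz2⟩, ?_⟩
        rw [hτj j m z (not_le.1 hzp) (by omega), ← hX, if_pos hz2]
        exact hz3
    have hcard := (card_le_card hsub).trans (card_union_le _ _)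
    have hcr : (((Finset.Icc 1 X).filter (fun z => Tv j m z ≠ 0)).card : ℝ) ≤
        (Finset.Icc 1 (prev j / 2 ^ m)).card +
          ((Finset.Icc 1 X).filter (fun z => τ m z ≠ 0)).card := by
      exact_mod_cast hcard
    linarith
  have hδE : 0 ≤ δ * E := mul_nonneg hδ (zero_le_one.trans hE1)
  have hθE : 0 ≤ θ * E := mul_nonneg hθ (zero_le_one.trans hE1)
  refine ⟨?_, ?_, ?_⟩
  · have hsub : (Finset.Icc 1 Y).filter (fun z => τ m z ≠ τ m (z + 1)) ⊆
        (Finset.Icc 1 (prev j / 2 ^ m) ∪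
          (Finset.Icc 1 X).filter (fun z => Tv j m z ≠ Tv j m (z + 1))) ∪ {X, Y} := by
      intro z hz
      rw [mem_filter, mem_Icc] at hz
      obtain ⟨⟨hz1, hz2⟩, hz3⟩ := hz
      rw [mem_union, mem_union, mem_Icc, mem_filter, mem_Icc, mem_insert, mem_singleton]
      by_cases hzp : z ≤ prev j / 2 ^ m
      · exact Or.inl (Or.inl ⟨hz1, hzp⟩)
      by_cases hzY : z = Y
      · exact Or.inr (Or.inr hzY)
      have e1 := hτj j m z (not_le.1 hzp) (by omega)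
      have e2 := hτj j m (z + 1) (by omega) (by omega)
      rw [← hX] at e1 e2
      rw [e1, e2] at hz3
      by_cases hzX : z + 1 ≤ X
      · rw [if_pos (by omega), if_pos hzX] at hz3
        exact Or.inl (Or.inr ⟨⟨hz1, by omega⟩, hz3⟩)
      · rw [if_neg hzX] at hz3
        by_cases hzX' : z ≤ X
        · exact Or.inr (Or.inl (by omega))
        · rw [if_neg hzX'] at hz3
          exact absurd rfl hz3
    have hcard := (card_le_card hsub).trans ((card_union_le _ _).trans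
      (add_le_add (card_union_le _ _) card_le_two))
    have hcr : (((Finset.Icc 1 Y).filter (fun z => τ m z ≠ τ m (z + 1))).card : ℝ) ≤
        (Finset.Icc 1 (prev j / 2 ^ m)).card +
          ((Finset.Icc 1 X).filter (fun z => Tv j m z ≠ Tv j m (z + 1))).card + 2 := by
      exact_mod_cast hcard
    have h4 : 1 / ((j : ℝ) + 1) * X ≤ E := by
      rw [hE, one_div_mul_eq_div]
      exact div_le_div_of_nonneg_right hXN hpos.le
    nlinarith
  · have h4 : δ * ((N j : ℝ) / 2 ^ (m + 1) - 1) ≤ δ * X := mul_le_mul_of_nonneg_left hXr2 hδ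
    have h5 : δ / 2 ^ (m + 1) * N j = δ * ((N j : ℝ) / 2 ^ (m + 1)) := by ring
    rw [sub_mul, h5]
    nlinarith
  · have hsub : (Finset.Icc 1 Y).filter
          (fun z => z ≡ c [MOD Q] ∧ τ m z ≠ 0 ∧ f z ≠ (τ m z : ℝ)) ⊆
        Finset.Icc 1 (prev j / 2 ^ m) ∪ (Finset.Icc 1 X).filter
          (fun z => z ≡ c [MOD Q] ∧ Tv j m z ≠ 0 ∧ f z ≠ (Tv j m z : ℝ)) := by
      intro z hz
      rw [mem_filter, mem_Icc] at hz
      obtain ⟨⟨hz1, hz2⟩, hz3, hz4, hz5⟩ := hz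
      rw [mem_union, mem_Icc, mem_filter, mem_Icc]
      by_cases hzp : z ≤ prev j / 2 ^ m
      · exact Or.inl ⟨hz1, hzp⟩
      · have e1 := hτj j m z (not_le.1 hzp) (by omega)
        rw [← hX] at e1
        by_cases hzX : z ≤ X
        · rw [if_pos hzX] at e1
          rw [e1] at hz4 hz5
          exact Or.inr ⟨⟨hz1, hzX⟩, hz3, hz4, hz5⟩
        · rw [if_neg hzX] at e1
          exact absurd e1 hz4
    have hcard := (card_le_card hsub).trans (card_union_le _ _)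
    have hcr : (((Finset.Icc 1 Y).filter
          (fun z => z ≡ c [MOD Q] ∧ τ m z ≠ 0 ∧ f z ≠ (τ m z : ℝ))).card : ℝ) ≤
        (Finset.Icc 1 (prev j / 2 ^ m)).card + ((Finset.Icc 1 X).filter
          (fun z => z ≡ c [MOD Q] ∧ Tv j m z ≠ 0 ∧ f z ≠ (Tv j m z : ℝ))).card := by
      exact_mod_cast hcard
    have h4 := mul_le_mul_of_nonneg_left hsupp hθ
    nlinarith

end Pool.Agent.H33.BZ
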