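import Pool.Agent.H24.BZ.Targets
import Pool.Agent.H41.AG.SYS
import Pool.Agent.H41.UG.USY

/-!
Module VSY of the project BZ (`MP_c59857_nt`): the measure on the symbolic space.
-/

set_option autoImplicit false

open MeasureTheory Filter Topology Finset
open scoped Nat

namespace Pool.Agent.H33.BZ

open Pool.Agent.H24.MR (lam dens FinAddInv)
open Pool.Agent.H24.T2 (Pset rel)
open Pool.Agent.H80.AG (Fam)
open Pool.Agent.H24.UG (Om Lb shM sh DD FL SN FC SC RS RB ptO sg3)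
open Pool.Agent.H24.BZ
open Pool.Agent.H59.MR (finAddInv_dens)
open Pool.Agent.H41.UG (lb3 lb3_sg lb3_zero lb3_inj)

theorem pf_VSY (ha : T_VAR) (hu : Pool.Agent.H80.AG.T_UNI) (hp : Pool.Agent.H24.UG.T_UPT) :
    T_VSY := by
  classical
  intro k δ η hδ hδ1 hη hnot
  obtain ⟨Q, c, β, ρ, Mf, hQ, hQe, hβ, hρ, hMf, hJ⟩ := ha k δ η hδ hδ1 hη hnot
  choose F mm σ fl aff hF using hJ
  have : NeZero Q := ⟨hQ.ne'⟩
  let V : Ultrafilter ℕ := hyperfilter ℕ
  have hV : ∀ n : ℕ, ∀ᶠ J in (V : Filter ℕ), n ≤ J := fun n =>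
    Nat.hyperfilter_le_atTop (eventually_ge_atTop n)
  -- the scales
  have hm : ∀ w i, ∃ m ∈ (Mf w i : Set ℕ), ∀ᶠ J in (V : Filter ℕ), mm J w i = m := by
    intro w i
    rw [← Ultrafilter.eventually_exists_mem_iff (Mf w i).finite_toSet]
    filter_upwards [hV w, hV i] with J h1 h2
    exact ⟨_, (hF J).mem w h1 i h2, rfl⟩
  choose m hmM hm using hm
  -- the weights
  have haf : ∀ w i, ∃ x ∈ Set.Icc ρ 1, Tendsto (fun J => aff J w i) (V : Filter ℕ) (𝓝 x) := by
    intro w i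
    have h1 : ((V.map fun J => aff J w i : Ultrafilter ℝ) : Filter ℝ) ≤ 𝓟 (Set.Icc ρ 1) := by
      rw [le_principal_iff]
      change ∀ᶠ J in (V : Filter ℕ), aff J w i ∈ Set.Icc ρ 1
      filter_upwards [hV w, hV i] with J h1 h2
      exact (hF J).af0 w h1 i h2
    obtain ⟨x, hx, hx2⟩ := isCompact_Icc.ultrafilter_le_nhds _ h1
    exact ⟨x, hx, hx2⟩
  choose af haf1 haf2 using haf
  let l : ∀ J, Fin (F J).n → ℕ → Lb := fun J a y =>
    (fun wi => fl J a wi.1 wi.2 y, fun p => lb3 (σ J a p y))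
  let pt : ∀ J, Fin (F J).n → ℕ → Om Q := fun J a n => ptO Q (l J a) n
  obtain ⟨P, hPp, hPi, hPc⟩ := hu (Om Q) (sh Q) V F pt (fun J a n => (hp Q (l J a)).1 n)
  obtain ⟨-, -, -, -, c5, c6, c7, c8⟩ := hp Q (fun _ => (fun _ => false, fun _ => 0))
  have e1 : ∀ J a n, (pt J a n).2.2 0 = l J a n := fun J a n => ((hp Q (l J a)).2.1 n).2.1
  have e2 : ∀ J a n, (pt J a n).2.2 1 = l J a (n + 1) := fun J a n => ((hp Q (l J a)).2.1 n).2.2
  have e3 : ∀ J a n, (pt J a n).2.1 = (n : ZMod Q) := fun J a n => ((hp Q (l J a)).2.1 n).1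
  have hz : ∀ C : Set (Om Q), IsClopen C →
      (∀ J a, dens ((F J).U a) ((F J).N a) {n | pt J a n ∈ C} = 0) → P C = 0 := by
    intro C hC h0
    have h1 := hPc C hC
    have h2 : (fun J => (F J).d fun a => {n | pt J a n ∈ C}) = fun _ => (0 : ℝ) := by
      funext J
      unfold Fam.d
      exact Finset.sum_eq_zero fun a _ => by rw [h0 J a, mul_zero]
    rw [h2] at h1
    have h3 := tendsto_nhds_unique h1 tendsto_const_nhds
    exact (measureReal_eq_zero_iff (measure_ne_top P C)).1 h3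
  have hval : ∀ J a p y, σ J a p y = 0 ∨ σ J a p y = 1 ∨ σ J a p y = -1 := fun J =>
    (hF J).val
  -- the sets
  have sFS : ∀ J a w i p, {n | pt J a n ∈ FL Q w i ∩ SN Q p} =
      {y | fl J a w i y = true ∧ σ J a p y ≠ 0} := by
    intro J a w i p
    ext n
    change (((pt J a n).2.2 0).1 (w, i) = true ∧ ((pt J a n).2.2 0).2 p ≠ 0) ↔ _
    rw [e1]
    change (fl J a w i n = true ∧ lb3 (σ J a p n) ≠ 0) ↔ (fl J a w i n = true ∧ σ J a p n ≠ 0)
    rw [Ne, lb3_zero (hval J a p n)]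
  have cFS : ∀ w i p, IsClopen (FL Q w i ∩ SN Q p) := fun w i p => (c5 w i).1.inter (c6 p).1
  refine ⟨Q, inferInstance, c, β, ρ, m, af, P, hQe, hβ, hρ, ⟨hPp, hPi,
    fun w i => hMf w i _ (hmM w i), fun w i => ?_, fun p hpp hpQ => ?_, fun w i => haf1 w i,
    fun w i => ?_, fun w i p hpm => ?_, fun w i => ?_, fun W hW ε hε => ?_⟩⟩
  · -- flags
    refine hz _ (c5 w i).2 fun J a => ?_
    rw [← (hF J).fcs a w i]
    congr 1
  · -- signs
    refine hz _ (c6 p).2 fun J a => ?_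
    rw [← (hF J).cst a p hpp hpQ]
    congr 1
    ext n
    change ((pt J a n).2.2 0).2 p ≠ ((pt J a n).2.2 1).2 p ↔ _
    rw [e1, e2]
    change lb3 (σ J a p n) ≠ lb3 (σ J a p (n + 1)) ↔ σ J a p n ≠ σ J a p (n + 1)
    rw [Ne, lb3_inj (hval J a p n) (hval J a p (n + 1))]
  · -- the flags
    refine le_of_tendsto_of_tendsto (hPc _ (c5 w i).1) (haf2 w i) ?_
    filter_upwards [hV w, hV i] with J h1 h2
    refine le_trans (le_of_eq ?_) ((hF J).up w h1 i h2)
    congr 1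
  · -- dense
    refine le_of_tendsto_of_tendsto ((haf2 w i).const_mul (3 / 4 * δ)) (hPc _ (cFS w i p)) ?_
    filter_upwards [hV w, hV i, hm w i] with J h1 h2 h3
    refine le_trans ((hF J).dense w h1 i h2 p (by rw [h3]; exact hpm)) (le_of_eq ?_)
    congr 1
    funext a
    exact (sFS J a w i p).symm
  · -- relation
    refine le_of_tendsto_of_tendsto (tendsto_finsetSum _ fun p _ =>
      hPc _ (c7 k β (c : ZMod Q) p w i))
      (((tendsto_finsetSum (Pset (Q * w !) (m w i)) fun p _ =>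
        hPc _ (cFS w i p)).const_mul (12 * η / Q)).add
        ((haf2 w i).const_mul (2 / (((i : ℝ) + 1) * Q) * (Pset (Q * w !) (m w i)).card))) ?_
    filter_upwards [hV w, hV i, hm w i] with J h1 h2 h3
    have h4 := (hF J).relation w h1 i h2
    rw [h3] at h4
    have h5 : ∑ p ∈ Pset (Q * w !) (m w i), (F J).d (fun a => {n | pt J a n ∈ FL Q w i ∩ SN Q p}) =
        ∑ p ∈ Pset (Q * w !) (m w i),
          (F J).d (fun a => {y | fl J a w i y = true ∧ σ J a p y ≠ 0}) := by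
      refine Finset.sum_congr rfl fun p _ => ?_
      congr 1
      funext a
      exact sFS J a w i p
    rw [h5]
    refine le_trans (le_of_eq (Finset.sum_congr rfl fun p _ => ?_)) h4
    congr 1
    funext a
    ext n
    change (((pt J a n).2.2 0).1 (w, i) = true ∧ (((pt J a n).2.2 0).2 p ≠ 0 ∧
      (pt J a n).2.1 = (c : ZMod Q) ∧
      pt J a n ∈ RB Q β p (sg3 (((pt J a n).2.2 0).2 p)))) ↔ _
    rw [e1, e3]
    change (fl J a w i n = true ∧ (lb3 (σ J a p n) ≠ 0 ∧ (n : ZMod Q) = (c : ZMod Q) ∧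
      ptO Q (l J a) n ∈ RB Q β p (sg3 (lb3 (σ J a p n))))) ↔
      (fl J a w i n = true ∧ σ J a p n ≠ 0 ∧ n ≡ c [MOD Q] ∧
        rel β lam p n ≠ (σ J a p n : ℝ))
    rw [(hp Q (l J a)).2.2.2.1, lb3_sg (hval J a p n), Ne, lb3_zero (hval J a p n),
      ZMod.natCast_eq_natCast_iff]
  · -- Matomaki-Radziwill
    obtain ⟨h₀, hh₀⟩ := Pool.Agent.H41.AG.mr_all W ε hW hε
    refine ⟨h₀, fun h hh => ?_⟩
    refine le_of_tendsto (hPc _ (c8 W h (ε * h))) ?_
    refine Eventually.of_forall fun J => ?_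
    unfold Fam.d
    calc ∑ a, (F J).u a * dens ((F J).U a) ((F J).N a) {n | pt J a n ∈ {ω : Om Q |
          ε * h ≤ |∑ y ∈ range h, DD Q ((sh Q)^[W * y] ω)|}}
        ≤ ∑ a, (F J).u a * ε := by
          refine Finset.sum_le_sum fun a _ => mul_le_mul_of_nonneg_left ?_ ((F J).u0 a)
          refine le_trans (le_of_eq ?_) (hh₀ h hh _ _ ((F J).hN a))
          congr 1
          ext n
          change ε * h ≤ |∑ y ∈ range h, DD Q ((sh Q)^[W * y] (ptO Q (l J a) n))| ↔ _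
          simp only [(hp Q (l J a)).2.2.1]
          exact Iff.rfl
      _ = ε := by rw [← Finset.sum_mul, (F J).u1, one_mul]

end Pool.Agent.H33.BZ
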